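import Pool.Agent.T9h88.IO.Asm
import Pool.Agent.T9h21.IO.InstI
import Pool.Agent.T9h71.IO.Engine
import Pool.Agent.T9h80.IO.Names

/-!
# Use of the axiom `Ax1`
-/

set_option autoImplicit false

namespace Pool.Agent.T9h58.IO

open Pool.Agent.TH672 (Fm Str upd num digits varStr LogK ReplK Sw Pv)
open Pool.Agent.TH672.Form (ren)
open Pool.Agent.TH636.BC
open Pool.Agent.T9h6.BC (sz cl sz_imp sz_all sz_pos TD fo pp subst_self freeFor_self)
open Pool.Agent.TH690.J100 (subst_of_not_free)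
open Pool.Agent.T9h88.IO
open Pool.Agent.T9h71.IO (sEngine)
open Pool.Agent.T9h80.IO (sNames freeFor_of_not_free)
open Pool.Agent.T9h21.IO (instI)

/-- no variable of a context is below `60` -/
theorem nf_chi (d : CD) {x : ℕ} (hx : x < VB) : ¬ d.χ.Free x := (sNames.2 d.N d.h.good).2.2 x hx

theorem sz_chi (d : CD) : sz d.χ ≤ pb 12 d.L := by
  have h := (sNames.2 d.N d.h.good).2.1
  refine h.trans ?_
  have e : pb 12 d.L = (d.L + 2) ^ 10 * (d.L + 2) ^ 2 := by rw [pb, ← pow_add]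
  have h1 : 1024 ≤ (d.L + 2) ^ 10 := by
    calc (1024 : ℕ) = 2 ^ 10 := by norm_num
      _ ≤ (d.L + 2) ^ 10 := Nat.pow_le_pow_left (by omega) 10
  rw [e]
  exact Nat.mul_le_mul (by omega) (Nat.pow_le_pow_left (by have : d.L = d.N.length := rfl; omega) 2)

theorem sp_chi {ι : Type} (D : ι → CD) : SP (fun i => (D i).L) fun i => (D i).χ :=
  ⟨12, fun i => sz_chi (D i)⟩

/-- projection -/
theorem proj : ∃ C, ∀ (Γ : List Fml) (d : CD), ∀ a ∈ d.N,
    Proves Γ (pb C d.L) (d.χ.imp (a.ren (· + VB)).fm) := by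
  obtain ⟨C, hC⟩ := sEngine [] (by simp)
  refine ⟨(15 + 2) * C, fun Γ d a ha => ?_⟩
  have h := hC Γ d.N d.N.length a (by simp) (sNames.2 d.N d.h.good).1 (.base ha)
  refine h.mono ((pb_le le_rfl ?_).trans (pb_comp C 15 d.L))
  have h1 := sz_chi d
  have h2 := le_pb (C := 1) d.L le_rfl
  have h3 := pb_add 12 1 d.L
  have h4 : pb (12 + 1 + 1) d.L ≤ pb 15 d.L := pb_le (by omega) le_rfl
  have e1 : d.χ = ctx d.N := rfl
  have e2 : d.L = d.N.length := rfl
  rw [← e1, ← e2]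
  omega

theorem ppProj {ι : Type} {Γ : ι → List Fml} {D : ι → CD} {a : ι → At} (h : ∀ i, a i ∈ (D i).N) :
    PP Γ (fun i => (D i).L) fun i => (D i).χ.imp ((a i).ren (· + VB)).fm := by
  obtain ⟨C, hC⟩ := proj
  exact ⟨C, fun i => hC _ _ _ (h i)⟩

/-- proofs of formulas with numerals -/
theorem ppInstI {ι : Type} {Γ : ι → List Fml} {D : ι → CD} {φ ψ : ι → Fml} {x : ℕ} {n : ι → ℕ}
    (hΓ : ∀ i, ∀ ψ ∈ robinson, ψ ∈ Γ i) (hx0 : x ≠ 0) (hx1 : x ≠ 1) (hxV : x < VB)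
    (hφ0 : ∀ i, ¬ (φ i).Free 0) (hφ1 : ∀ i, ¬ (φ i).Free 1)
    (hψ0 : ∀ i, ¬ (ψ i).Free 0) (hψ1 : ∀ i, ¬ (ψ i).Free 1) (hψx : ∀ i, ¬ (ψ i).Free x)
    (hn : ∀ i, n i ≤ (D i).M)
    (h : PP Γ (fun i => (D i).L) fun i => (D i).χ.imp ((Fm.eq x (n i + VB)).imp
      ((ψ i).imp (φ i)))) :
    PP Γ (fun i => (D i).L) fun i => (D i).χ.imp ((ψ i).imp (inst x (n i) (φ i))) := by
  obtain ⟨C, hC⟩ := instI
  obtain ⟨C1, h1⟩ := proj
  obtain ⟨C2, h2⟩ := h
  have hVB : VB = 60 := rfl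
  refine ⟨(C1 + C2 + 2 + 2) * C, fun i => ?_⟩
  have m1 : pb C1 (D i).L ≤ pb (C1 + C2) (D i).L := pb_le (by omega) le_rfl
  have m2 : pb C2 (D i).L ≤ pb (C1 + C2) (D i).L := pb_le (by omega) le_rfl
  have k := hC (Γ i) (D i).χ (φ i) (ψ i) (· + VB) x (n i) (pb (C1 + C2) (D i).L) (hΓ i) hx0 hx1
    (hφ0 i) (hφ1 i) (nf_chi _ (by omega)) (nf_chi _ (by omega)) (nf_chi _ hxV) (hψ0 i) (hψ1 i)
    (hψx i) (fun j _ => ⟨by omega, by omega, by omega⟩)
    ((h1 (Γ i) (D i) _ (D i).h.zero).mono m1)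
    (fun j hj => (h1 (Γ i) (D i) _ ((D i).h.succ j (by have := hn i; omega))).mono m1)
    ((h2 i).mono m2)
  refine k.mono ((pb_le le_rfl ?_).trans (pb_comp C (C1 + C2 + 2) (D i).L))
  have h3 := pb_add (C1 + C2) 1 (D i).L
  have h4 := le_pb (C := 1) (D i).L le_rfl
  have h5 := hn i
  have h6 : (D i).M < (D i).L := (D i).h.numlt
  have h7 : pb (C1 + C2 + 1 + 1) (D i).L = pb (C1 + C2 + 2) (D i).L := rfl
  omega

theorem nf_n2 {i a b x : ℕ} (hx : x < VB) : ¬ (n2 i a b).Free x := by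
  have hVB : VB = 60 := rfl
  intro h
  simp only [n2, At.fm, Fm.Free] at h
  omega

/-- (A4) -/
theorem aAx1 : AAx1 := by
  intro ι Γ D A₀ P κ v m hP hR hA hv hm hz hc hD1 hAf
  have hVB : VB = 60 := rfl
  have hL : ∀ i, (D i).M < (D i).L := fun i => (D i).h.numlt
  have nfo : ∀ x, x ≠ 2 → x ≠ 3 → ¬ (off P).Free x := fun x h2 h3 h => by
    rcases free_off hP h with h | h
    · exact h2 h
    · exact h3 h
  have nf3 : ∀ x, x ≠ 2 → ¬ (Fm.all 3 (off P)).Free x := fun x h2 h => nfo x h2 h.1 h.2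
  have so : ∀ x y, x ≠ 2 → (Fm.all 3 (off P)).subst x y = .all 3 (off P) := fun x y h2 =>
    subst_of_not_free (nf3 x h2)
  have ffo : ∀ x y, x ≠ 2 → (Fm.all 3 (off P)).FreeFor y x := fun x y h2 =>
    freeFor_of_not_free _ (nf3 x h2)
  -- the axiom and its instances
  have a0 : PP Γ (fun i => (D i).L) fun _ => Ax1 P :=
    ⟨sz (Ax1 P), fun i => (Proves.ax (hA i)).mono (const_le_pb _ _)⟩
  have a1 := a0.inst (y := fun i => v i + VB) (fun i => by have := hv i; have := hL i; omega)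
    (fun i => by
      refine .inr (.inr ⟨by omega, .inr (.inr ⟨by omega, .inr (.inr ⟨by omega, ?_⟩)⟩)⟩)
      exact ⟨trivial, trivial, trivial, ffo _ _ (by omega)⟩)
  have e1 : ∀ y : ℕ, (Fm.all 28 (.all 29 (.all 2 (.imp (o3 iD1 27 28 29).fm
      (.imp (o2 iAf 29 2).fm (.imp θ0 (.all 3 (off P)))))))).subst 27 y =
      .all 28 (.all 29 (.all 2 (.imp (o3 iD1 y 28 29).fm
      (.imp (o2 iAf 29 2).fm (.imp (o2 iTh y 29).fm (.all 3 (off P))))))) := by
    intro y
    have := so 27 y (by omega)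
    simp only [Fm.subst, θ0, At.fm, ren] at this ⊢
    simp only [this]
    simp
  rw [show (fun i => _) = _ from funext fun i => e1 _] at a1
  have a2 := a1.inst (y := fun i => m i + VB) (fun i => by have := hm i; have := hL i; omega)
    (fun i => by
      refine .inr (.inr ⟨by omega, .inr (.inr ⟨by omega, ?_⟩)⟩)
      exact ⟨trivial, trivial, trivial, ffo _ _ (by omega)⟩)
  have e2 : ∀ u y : ℕ, u ≠ 28 → (Fm.all 29 (.all 2 (.imp (o3 iD1 u 28 29).fm
      (.imp (o2 iAf 29 2).fm (.imp (o2 iTh u 29).fm (.all 3 (off P))))))).subst 28 y =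
      .all 29 (.all 2 (.imp (o3 iD1 u y 29).fm
      (.imp (o2 iAf 29 2).fm (.imp (o2 iTh u 29).fm (.all 3 (off P)))))) := by
    intro u y hu
    have := so 28 y (by omega)
    simp only [Fm.subst, At.fm, ren, if_neg hu] at this ⊢
    simp only [this]
    simp
  rw [show (fun i => _) = _ from funext fun i => e2 _ _ (by omega)] at a2
  have a3 := a2.inst (y := fun i => zz A₀ P κ (v i) (m i) + VB)
    (fun i => by have := hz i; have := hL i; omega)
    (fun i => by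
      refine .inr (.inr ⟨by omega, ?_⟩)
      exact ⟨trivial, trivial, trivial, ffo _ _ (by omega)⟩)
  have e3 : ∀ u w y : ℕ, u ≠ 29 → w ≠ 29 → (Fm.all 2 (.imp (o3 iD1 u w 29).fm
      (.imp (o2 iAf 29 2).fm (.imp (o2 iTh u 29).fm (.all 3 (off P)))))).subst 29 y =
      .all 2 (.imp (o3 iD1 u w y).fm
      (.imp (o2 iAf y 2).fm (.imp (o2 iTh u y).fm (.all 3 (off P))))) := by
    intro u w y hu hw
    have := so 29 y (by omega)
    simp only [Fm.subst, At.fm, ren, if_neg hu, if_neg hw] at this ⊢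
    simp only [this]
    simp
  rw [show (fun i => _) = _ from funext fun i => e3 _ _ _ (by omega) (by omega)] at a3
  have a4 := a3.inst (y := fun _ => 2) (fun i => by omega) (fun i => freeFor_self _)
  simp only [subst_self] at a4
  -- equality
  have q1 : PP Γ (fun i => (D i).L) fun i =>
      (Fm.eq 2 (code (Am A₀ P κ (v i) (m i)) + VB)).imp (.eq (code (Am A₀ P κ (v i) (m i)) + VB) 2) := by
    have r1 : PP Γ (fun i => (D i).L) fun i => (Fm.eq 2 (code (Am A₀ P κ (v i) (m i)) + VB)).imp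
        ((Fm.eq 2 2).imp (.eq (code (Am A₀ P κ (v i) (m i)) + VB) 2)) := by
      refine ⟨1000, fun i => (Proves.log (.repl _ _ _ _ (.eq (.inr ⟨rfl, rfl⟩)
        (.inl rfl)))).mono ?_⟩
      have h1 := hc i
      have h2 := hL i
      have h3 := mul_pb 400 1 (D i).L
      have h4 := le_pb (C := 1) (D i).L le_rfl
      have h5 : pb (400 + 1) (D i).L ≤ pb 1000 (D i).L := pb_le (by omega) le_rfl
      simp only [sz_imp, T9h6.BC.sz_eq]
      omega
    have r2 : PP Γ (fun i => (D i).L) fun _ => (Fm.eq 2 2 : Fml) :=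
      ⟨sz (Fm.eq 2 2 : Fml), fun i => (Proves.log (.refl 2)).mono (const_le_pb _ _)⟩
    exact r1.s (PP.k r1.sp.left r2)
  have q2 : PP Γ (fun i => (D i).L) fun i => (Fm.eq (code (Am A₀ P κ (v i) (m i)) + VB) 2).imp
      ((n2 iAf (zz A₀ P κ (v i) (m i)) (code (Am A₀ P κ (v i) (m i)))).imp
        (o2 iAf (zz A₀ P κ (v i) (m i) + VB) 2).fm) := by
    refine ⟨1000, fun i => (Proves.log (.repl _ _ _ _ (.op (.inl rfl) (.inr ⟨rfl, rfl⟩)
      (.inr ⟨rfl, rfl⟩) (.inr ⟨rfl, rfl⟩)))).mono ?_⟩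
    have h0 := hz i
    have h1 := hc i
    have h2 := hL i
    have h3 := mul_pb 900 1 (D i).L
    have h4 := le_pb (C := 1) (D i).L le_rfl
    have h5 : pb (900 + 1) (D i).L ≤ pb 1000 (D i).L := pb_le (by omega) le_rfl
    simp only [sz_imp, T9h6.BC.sz_eq, T9h6.BC.sz_op, iAf]
    omega
  have q3 := q1.trans q2
  have q4 := PP.mp (φ := fun i => (Fm.eq 2 (code (Am A₀ P κ (v i) (m i)) + VB)).imp
      ((n2 iAf (zz A₀ P κ (v i) (m i)) (code (Am A₀ P κ (v i) (m i)))).imp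
        (o2 iAf (zz A₀ P κ (v i) (m i) + VB) 2).fm))
    (ψ := fun i => (n2 iAf (zz A₀ P κ (v i) (m i)) (code (Am A₀ P κ (v i) (m i)))).imp
      ((Fm.eq 2 (code (Am A₀ P κ (v i) (m i)) + VB)).imp (o2 iAf (zz A₀ P κ (v i) (m i) + VB) 2).fm))
    (PP.taut (.imp (.imp (pp 0) (.imp (pp 1) (pp 2))) (.imp (pp 1) (.imp (pp 0) (pp 2))))
      (by intro S v; simp only [Fm.sat_imp]; tauto) q3.sp.left q3.sp.right.left q3.sp.right.right
      q3.sp.left fun _ _ => rfl) q3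
  -- together
  have g1 := hAf.trans q4
  have g2 := hD1.trans a4
  have g3 := g1.transr g2
  have g4 : PP Γ (fun i => (D i).L) fun i => ((n2 iTh (v i) (zz A₀ P κ (v i) (m i))).imp
      (.all 3 (off P))).imp ((n2 iTh (v i) (zz A₀ P κ (v i) (m i))).imp (off P)) := by
    have r1 : PP Γ (fun i => (D i).L) fun _ => (Fm.all 3 (off P)).imp (off P) := by
      have h := LogK.inst 3 3 (off P) (freeFor_self _)
      rw [subst_self] at h
      exact ⟨_, fun i => (Proves.log h).mono (const_le_pb _ _)⟩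
    refine PP.mp (φ := fun _ => (Fm.all 3 (off P)).imp (off P)) ?_ r1
    exact PP.taut (.imp (.imp (pp 0) (pp 1)) (.imp (.imp (pp 2) (pp 0)) (.imp (pp 2) (pp 1))))
      (by intro S v; simp only [Fm.sat_imp]; tauto) r1.sp.left r1.sp.right g3.sp.right.right.left
      r1.sp.left fun _ _ => rfl
  have g5 := g3.transr (PP.k (sp_chi D) g4)
  have g6 := ppInstI hR (by omega) (by omega) (by omega) (fun i => nfo _ (by omega) (by omega))
    (fun i => nfo _ (by omega) (by omega)) (fun i => nf_n2 (by omega)) (fun i => nf_n2 (by omega))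
    (fun i => nf_n2 (by omega)) hc g5
  have g7 := (g6.unexp.genr (x := 3) (fun i h => by
    simp only [Fm.and, Fm.neg, Fm.Free, or_false] at h
    rcases h with h | h
    · exact nf_chi (D i) (by omega) h
    · exact nf_n2 (by omega) h)).exp (sp_chi D) g3.sp.right.right.left
  exact g7

end Pool.Agent.T9h58.IO
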