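import Pool.Agent.T9h88.IO.Spec

/-!
# Derivations for strings
-/

set_option autoImplicit false

namespace Pool.Agent.T9h58.IO

open Pool.Agent.TH672 (Fm Str upd num digits varStr LogK)
open Pool.Agent.TH636.BC
open Pool.Agent.T9h6.BC (sz cl)
open Pool.Agent.T9h88.IO

/-! ### numbers and strings -/

/-- one digit -/
def dg (n : ℕ) (b : Bool) : ℕ := 2 * n + if b then 2 else 1

lemma num_append (w σ : List Bool) : num (w ++ σ) = σ.foldl dg (num w) := by
  unfold num dg
  rw [List.foldl_append]

lemma num_digits (n : ℕ) : num (digits n) = n := by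
  induction n using Nat.strong_induction_on with
  | _ n ih =>
    rw [digits]
    split_ifs with h
    · subst h
      rfl
    · rw [num_append, ih ((n - 1) / 2) (by omega)]
      simp only [List.foldl_cons, List.foldl_nil, dg]
      by_cases h2 : n % 2 = 0
      · simp only [h2, decide_true, if_true]
        omega
      · simp only [h2, decide_false, Bool.false_eq_true, if_false]
        omega

lemma app_eq (b : ℕ) (σ : List Bool) : app b σ = σ.foldl dg b := by
  unfold app
  rw [num_append, num_digits]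

lemma app_nil (b : ℕ) : app b [] = b := by
  rw [app_eq]
  rfl

lemma app_append (b : ℕ) (σ τ : List Bool) : app b (σ ++ τ) = app (app b σ) τ := by
  rw [app_eq, app_eq, app_eq, List.foldl_append]

lemma app_cons (b : ℕ) (c : Bool) (τ : List Bool) : app b (c :: τ) = app (dg b c) τ := by
  rw [app_eq, app_eq, List.foldl_cons]

lemma le_app (b : ℕ) (σ : List Bool) : b ≤ app b σ := by
  induction σ generalizing b with
  | nil => rw [app_nil]
  | cons c σ ih =>
    rw [app_cons]
    refine le_trans ?_ (ih _)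
    unfold dg
    split_ifs <;> omega

lemma digits_zero : digits 0 = [] := by
  rw [digits]
  simp

lemma code_eq (Γ : List Fml) : code Γ = app 0 (strs Γ) := by
  unfold code app
  rw [digits_zero, List.nil_append]

/-! ### derivations -/

/-- an assignment of names -/
def rho (l : List ℕ) (i : ℕ) : ℕ := l.getD i 0

lemma rho_lt {l : List ℕ} {M : ℕ} (h0 : 0 < M) (hl : ∀ x ∈ l, x < M) (i : ℕ) : rho l i < M := by
  unfold rho
  rw [List.getD_eq_getElem?_getD]
  rcases h : l[i]? with _ | x
  · simpa using h0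
  · simpa using hl x (List.mem_of_getElem? h)

lemma stp {Cs : List Cl} {N : List At} {M : ℕ} {c : Cl} (hc : c ∈ Cs) (l : List ℕ) (h0 : 0 < M)
    (hl : ∀ x ∈ l, x < M) (hp : ∀ p ∈ c.prem, Der Cs N M (p.ren (rho l))) :
    Der Cs N M (c.concl.ren (rho l)) := Der.step (rho l) hc (rho_lt h0 hl) hp

lemma fc {α : Type} {Q : α → Prop} {a : α} {l : List α} (h : Q a) (t : ∀ p ∈ l, Q p) :
    ∀ p ∈ a :: l, Q p := List.forall_mem_cons.2 ⟨h, t⟩

lemma fn {α : Type} {Q : α → Prop} : ∀ p ∈ ([] : List α), Q p := fun _ h => absurd h (by simp)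

section
variable {P : Fml} {κ : ℕ} {Cs : List Cl} {N : List At} {ν : T9h88.IO.Tree → ℕ} {M K : ℕ}

lemma lt_len (hN : Ctx N ν M K) {a : ℕ} (h : a ≤ M) : a < N.length := lt_of_le_of_lt h hN.numlt

lemma add_der (h : ∀ c ∈ clNum P κ, c ∈ Cs) (hN : Ctx N ν M K) (a : ℕ) :
    ∀ b, a + b ≤ M → Der Cs N N.length (.add a b (a + b))
  | 0, hb => stp (h _ (List.mem_of_getElem? (l := clNum P κ) (i := 0) rfl)) [a, 0]
      (lt_len hN (Nat.zero_le _)) (fc (lt_len hN (by omega)) (fc (lt_len hN (by omega)) fn))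
      (fc (Der.base hN.zero) fn)
  | b + 1, hb => stp (h _ (List.mem_of_getElem? (l := clNum P κ) (i := 1) rfl))
      [a, b, b + 1, a + b, a + b + 1] (lt_len hN (Nat.zero_le _))
      (fc (lt_len hN (by omega)) (fc (lt_len hN (by omega)) (fc (lt_len hN (by omega))
        (fc (lt_len hN (by omega)) (fc (lt_len hN (by omega)) fn)))))
      (fc (Der.base (hN.succ b (by omega))) (fc (add_der h hN a b (by omega))
        (fc (Der.base (hN.succ (a + b) (by omega))) fn)))

lemma db0_der (h : ∀ c ∈ clNum P κ, c ∈ Cs) (hN : Ctx N ν M K) (a : ℕ) (ha : 2 * a + 1 ≤ M) :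
    Der Cs N N.length (o2 iDb0 a (2 * a + 1)) :=
  stp (h _ (List.mem_of_getElem? (l := clNum P κ) (i := 4) rfl)) [a, 2 * a, 2 * a + 1]
    (lt_len hN (Nat.zero_le _)) (fc (lt_len hN (by omega)) (fc (lt_len hN (by omega))
      (fc (lt_len hN (by omega)) fn)))
    (fc (by
        have := add_der h hN a a (by omega)
        rw [← two_mul] at this
        exact this)
      (fc (Der.base (hN.succ (2 * a) (by omega))) fn))

lemma db1_der (h : ∀ c ∈ clNum P κ, c ∈ Cs) (hN : Ctx N ν M K) (a : ℕ) (ha : 2 * a + 2 ≤ M) :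
    Der Cs N N.length (o2 iDb1 a (2 * a + 2)) :=
  stp (h _ (List.mem_of_getElem? (l := clNum P κ) (i := 5) rfl)) [a, 2 * a, 2 * a + 1, 2 * a + 2]
    (lt_len hN (Nat.zero_le _)) (fc (lt_len hN (by omega)) (fc (lt_len hN (by omega))
      (fc (lt_len hN (by omega)) (fc (lt_len hN (by omega)) fn))))
    (fc (by
        have := add_der h hN a a (by omega)
        rw [← two_mul] at this
        exact this)
      (fc (Der.base (hN.succ (2 * a) (by omega))) (fc (Der.base (hN.succ (2 * a + 1) (by omega))) fn)))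

lemma app_der (h : ∀ c ∈ clNum P κ, c ∈ Cs) (hN : Ctx N ν M K) (τ : List Bool)
    (hτ : ∀ c ∈ appCl τ, c ∈ Cs) (b : ℕ) (hb : app b τ ≤ M) :
    Der Cs N N.length (o2 (iApp τ) b (app b τ)) := by
  have key : ∀ n ≤ τ.length, Der Cs N N.length (o2 (iApp (τ.take n)) b (app b (τ.take n))) := by
    intro n
    induction n with
    | zero =>
      intro _
      rw [List.take_zero, app_nil]
      have hbM : b ≤ M := (le_app b τ).trans hb
      exact stp (hτ _ (List.mem_cons_self)) [b] (lt_len hN (Nat.zero_le _))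
        (fc (lt_len hN hbM) fn) fn
    | succ n ih =>
      intro hn
      have h1 := ih (by omega)
      have hlt : n < τ.length := by omega
      have e1 : τ.take (n + 1) = τ.take n ++ [τ.getD n false] := by
        rw [List.take_succ_eq_append_getElem hlt, List.getD_eq_getElem _ _ hlt]
      have e2 : app b τ = app (app b (τ.take (n + 1))) (τ.drop (n + 1)) := by
        rw [← app_append, List.take_append_drop]
      have h2 : app b (τ.take (n + 1)) ≤ M := by
        rw [e2] at hb
        exact (le_app _ _).trans hb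
      have e3 : app b (τ.take (n + 1)) = dg (app b (τ.take n)) (τ.getD n false) := by
        rw [e1, app_append, app_cons, app_nil]
      have hmem : appStep (τ.take n) (τ.getD n false) ∈ Cs := by
        apply hτ
        unfold appCl
        refine List.mem_cons_of_mem _ (List.mem_map.2 ⟨n, List.mem_range.2 hlt, rfl⟩)
      have h3 : b ≤ app b (τ.take n) := le_app _ _
      have h4 : app b (τ.take n) ≤ app b (τ.take (n + 1)) := by
        rw [e3]
        unfold dg
        split_ifs <;> omega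
      have hdb : Der Cs N N.length (o2 (if τ.getD n false then iDb1 else iDb0) (app b (τ.take n))
          (app b (τ.take (n + 1)))) := by
        rw [e3] at h2 ⊢
        unfold dg at h2 ⊢
        by_cases hc : τ.getD n false = true
        · rw [if_pos hc] at h2 ⊢
          rw [if_pos hc]
          exact db1_der h hN _ h2
        · rw [if_neg hc] at h2 ⊢
          rw [if_neg hc]
          exact db0_der h hN _ h2
      have h5 := stp (N := N) hmem [b, app b (τ.take n), app b (τ.take (n + 1))]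
        (lt_len hN (Nat.zero_le _)) (fc (lt_len hN (by omega)) (fc (lt_len hN (by omega))
          (fc (lt_len hN (by omega)) fn))) (fc h1 (fc (by
            by_cases hc : τ.getD n false = true
            · rw [if_pos hc] at hdb ⊢
              exact hdb
            · rw [if_neg hc] at hdb ⊢
              exact hdb) fn))
      rw [e1] at h5 ⊢
      exact h5
  have := key τ.length le_rfl
  rwa [List.take_length] at this

lemma ndd (hN : Ctx N ν M K) (a b : T9h88.IO.Tree) (h : (T9h88.IO.Tree.node a b).size ≤ K) :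
    Der Cs N N.length (nd (ν a) (ν b) (ν (.node a b))) := Der.base (hN.node a b h)

lemma nll (hN : Ctx N ν M K) : Der Cs N N.length (nl (ν .nil)) := Der.base hN.nil

lemma var_der (h : ∀ c ∈ clNum P κ, c ∈ Cs) (hS : ∀ c ∈ clStr, c ∈ Cs) (hN : Ctx N ν M K) :
    ∀ (x b : ℕ), app b (varStr x) ≤ M → (comb x).size ≤ K →
      Der Cs N N.length (o3 iVar (ν (comb x)) b (app b (varStr x)))
  | 0, b, hb, hK => by
    have e : app b (varStr 0) = 2 * b + 1 := by
      show app b [false] = _
      rw [app_cons, app_nil]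
      rfl
    rw [e] at hb ⊢
    exact stp (hS _ (List.mem_of_getElem? (l := clStr) (i := 0) rfl)) [ν .nil, b, 2 * b + 1]
      (lt_len hN (Nat.zero_le _))
      (fc (hN.lt _ (by (try simp only [T9h88.IO.Tree.size]); omega)) (fc (lt_len hN (by omega))
        (fc (lt_len hN (by omega)) fn)))
      (fc (nll hN) (fc (db0_der h hN b hb) fn))
  | x + 1, b, hb, hK => by
    have e : app b (varStr (x + 1)) = app (2 * b + 2) (varStr x) := by
      have : varStr (x + 1) = true :: varStr x := by
        unfold varStr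
        rw [List.replicate_succ, List.cons_append]
      rw [this, app_cons]
      rfl
    rw [e] at hb ⊢
    have h1 := le_app (2 * b + 2) (varStr x)
    have hK' : (comb x).size + 1 ≤ K := by
      have : (comb (x + 1)).size = 0 + (comb x).size + 1 := rfl
      omega
    exact stp (hS _ (List.mem_of_getElem? (l := clStr) (i := 1) rfl))
      [ν (comb x), b, app (2 * b + 2) (varStr x), ν .nil, ν (.node .nil (comb x)), 2 * b + 2]
      (lt_len hN (Nat.zero_le _))
      (fc (hN.lt _ (by omega)) (fc (lt_len hN (by omega)) (fc (lt_len hN hb)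
        (fc (hN.lt _ (by (try simp only [T9h88.IO.Tree.size]); omega))
        (fc (hN.lt _ (by (try simp only [T9h88.IO.Tree.size]); omega)) (fc (lt_len hN (by omega)) fn))))))
      (fc (nll hN) (fc (ndd hN _ _ (by (try simp only [T9h88.IO.Tree.size]); omega))
        (fc (db1_der h hN b (by omega)) (fc (var_der h hS hN x (2 * b + 2) hb (by omega)) fn))))

lemma tag_der (h : ∀ c ∈ clNum P κ, c ∈ Cs) (hA : ∀ c ∈ clApp P, c ∈ Cs) (hN : Ctx N ν M K)
    (t : List Bool) (ht : t ∈ tags) (b : ℕ) (hb : app b t ≤ M) :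
    Der Cs N N.length (o2 (iApp t) b (app b t)) :=
  app_der h hN t (fun c hc => hA c (List.mem_flatMap.2 ⟨t, List.mem_append_left _ ht, hc⟩)) b hb

lemma str_der (h : ∀ c ∈ clNum P κ, c ∈ Cs) (hS : ∀ c ∈ clStr, c ∈ Cs) (hA : ∀ c ∈ clApp P, c ∈ Cs)
    (hN : Ctx N ν M K) (φ : Fml) : ∀ b : ℕ, app b (str φ) ≤ M → (enc φ).size ≤ K →
      Der Cs N N.length (o3 iStr (ν (enc φ)) b (app b (str φ))) := by
  induction φ with
  | bot =>
    intro b hb hK
    have h1 := le_app b [false, false, false, false]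
    have hb' : app b [false, false, false, false] ≤ M := hb
    exact stp (hS _ (List.mem_of_getElem? (l := clStr) (i := 2) rfl))
      [ν .nil, b, app b [false, false, false, false]]
      (lt_len hN (Nat.zero_le _))
      (fc (hN.lt _ (by (try simp only [T9h88.IO.Tree.size]); omega)) (fc (lt_len hN (by omega))
        (fc (lt_len hN hb') fn)))
      (fc (nll hN) (fc (tag_der h hA hN _ (List.mem_of_getElem? (i := 0) rfl) b hb') fn))
  | eq x y =>
    intro b hb hK
    obtain ⟨A0, hA0⟩ : ∃ A0, A0 = app b [false, false, false, true] := ⟨_, rfl⟩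
    obtain ⟨A1, hA1⟩ : ∃ A1, A1 = app A0 (varStr x) := ⟨_, rfl⟩
    obtain ⟨A2, hA2⟩ : ∃ A2, A2 = app A1 (varStr y) := ⟨_, rfl⟩
    have e : app b (str (.eq x y)) = A2 := by
      show app b ([false, false, false, true] ++ varStr x ++ varStr y) = _
      rw [app_append, app_append, hA2, hA1, hA0]
    rw [e] at hb ⊢
    have l0 : b ≤ A0 := by rw [hA0]; exact le_app _ _
    have l1 : A0 ≤ A1 := by rw [hA1]; exact le_app _ _
    have l2 : A1 ≤ A2 := by rw [hA2]; exact le_app _ _
    simp only [enc, impT, allT, encA, encV, comb, T9h88.IO.Tree.size] at hK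
    have t0 : Der Cs N N.length (o2 (iApp [false, false, false, true]) b A0) := by
      rw [hA0]
      exact tag_der h hA hN _ (List.mem_of_getElem? (i := 1) rfl) b (by rw [← hA0]; omega)
    have t1 : Der Cs N N.length (o3 iVar (ν (comb x)) A0 A1) := by
      rw [hA1]
      exact var_der h hS hN _ _ (by rw [← hA1]; omega) (by omega)
    have t2 : Der Cs N N.length (o3 iVar (ν (comb y)) A1 A2) := by
      rw [hA2]
      exact var_der h hS hN _ _ (by rw [← hA2]; omega) (by omega)
    exact stp (hS _ (List.mem_of_getElem? (l := clStr) (i := 3) rfl))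
      [ν .nil, ν (comb x), ν (comb y), 0, 0, ν (T9h88.IO.Tree.node (comb y) T9h88.IO.Tree.nil), ν (T9h88.IO.Tree.node (comb x) (T9h88.IO.Tree.node (comb y) T9h88.IO.Tree.nil)), ν (T9h88.IO.Tree.node T9h88.IO.Tree.nil (T9h88.IO.Tree.node (comb x) (T9h88.IO.Tree.node (comb y) T9h88.IO.Tree.nil))), ν (T9h88.IO.Tree.node T9h88.IO.Tree.nil (T9h88.IO.Tree.node T9h88.IO.Tree.nil (T9h88.IO.Tree.node (comb x) (T9h88.IO.Tree.node (comb y) T9h88.IO.Tree.nil)))), b, A0, A1, A2]
      (lt_len hN (Nat.zero_le _))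
      (fc (hN.lt _ (by (try simp only [T9h88.IO.Tree.size]); omega))
      (fc (hN.lt _ (by (try simp only [T9h88.IO.Tree.size]); omega))
      (fc (hN.lt _ (by (try simp only [T9h88.IO.Tree.size]); omega))
      (fc (lt_len hN (by omega))
      (fc (lt_len hN (by omega))
      (fc (hN.lt _ (by (try simp only [T9h88.IO.Tree.size]); omega))
      (fc (hN.lt _ (by (try simp only [T9h88.IO.Tree.size]); omega))
      (fc (hN.lt _ (by (try simp only [T9h88.IO.Tree.size]); omega))
      (fc (hN.lt _ (by (try simp only [T9h88.IO.Tree.size]); omega))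
      (fc (lt_len hN (by omega))
      (fc (lt_len hN (by omega))
      (fc (lt_len hN (by omega))
      (fc (lt_len hN (by omega)) fn)))))))))))))
      (fc (nll hN)
      (fc (ndd hN _ _ (by (try simp only [T9h88.IO.Tree.size]); omega))
      (fc (ndd hN _ _ (by (try simp only [T9h88.IO.Tree.size]); omega))
      (fc (ndd hN _ _ (by (try simp only [T9h88.IO.Tree.size]); omega))
      (fc (ndd hN _ _ (by (try simp only [T9h88.IO.Tree.size]); omega))
      (fc t0
      (fc t1
      (fc t2 fn))))))))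
  | zero x =>
    intro b hb hK
    obtain ⟨A0, hA0⟩ : ∃ A0, A0 = app b [false, false, true, false] := ⟨_, rfl⟩
    obtain ⟨A1, hA1⟩ : ∃ A1, A1 = app A0 (varStr x) := ⟨_, rfl⟩
    have e : app b (str (.zero x)) = A1 := by
      show app b ([false, false, true, false] ++ varStr x) = _
      rw [app_append, hA1, hA0]
    rw [e] at hb ⊢
    have l0 : b ≤ A0 := by rw [hA0]; exact le_app _ _
    have l1 : A0 ≤ A1 := by rw [hA1]; exact le_app _ _
    simp only [enc, impT, allT, encA, encV, comb, T9h88.IO.Tree.size] at hK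
    have t0 : Der Cs N N.length (o2 (iApp [false, false, true, false]) b A0) := by
      rw [hA0]
      exact tag_der h hA hN _ (List.mem_of_getElem? (i := 2) rfl) b (by rw [← hA0]; omega)
    have t1 : Der Cs N N.length (o3 iVar (ν (comb x)) A0 A1) := by
      rw [hA1]
      exact var_der h hS hN _ _ (by rw [← hA1]; omega) (by omega)
    exact stp (hS _ (List.mem_of_getElem? (l := clStr) (i := 4) rfl))
      [ν .nil, ν (comb x), 0, 0, 0, ν (T9h88.IO.Tree.node (comb x) T9h88.IO.Tree.nil), 0, ν (T9h88.IO.Tree.node (T9h88.IO.Tree.node (T9h88.IO.Tree.node T9h88.IO.Tree.nil T9h88.IO.Tree.nil) T9h88.IO.Tree.nil) (T9h88.IO.Tree.node (comb x) T9h88.IO.Tree.nil)), ν (T9h88.IO.Tree.node T9h88.IO.Tree.nil (T9h88.IO.Tree.node (T9h88.IO.Tree.node (T9h88.IO.Tree.node T9h88.IO.Tree.nil T9h88.IO.Tree.nil) T9h88.IO.Tree.nil) (T9h88.IO.Tree.node (comb x) T9h88.IO.Tree.nil))), b, A0, A1, 0, ν (T9h88.IO.Tree.node T9h88.IO.Tree.nil T9h88.IO.Tree.nil), ν (T9h88.IO.Tree.node (T9h88.IO.Tree.node T9h88.IO.Tree.nil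 T9h88.IO.Tree.nil) T9h88.IO.Tree.nil)]
      (lt_len hN (Nat.zero_le _))
      (fc (hN.lt _ (by (try simp only [T9h88.IO.Tree.size]); omega))
      (fc (hN.lt _ (by (try simp only [T9h88.IO.Tree.size]); omega))
      (fc (lt_len hN (by omega))
      (fc (lt_len hN (by omega))
      (fc (lt_len hN (by omega))
      (fc (hN.lt _ (by (try simp only [T9h88.IO.Tree.size]); omega))
      (fc (lt_len hN (by omega))
      (fc (hN.lt _ (by (try simp only [T9h88.IO.Tree.size]); omega))
      (fc (hN.lt _ (by (try simp only [T9h88.IO.Tree.size]); omega))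
      (fc (lt_len hN (by omega))
      (fc (lt_len hN (by omega))
      (fc (lt_len hN (by omega))
      (fc (lt_len hN (by omega))
      (fc (hN.lt _ (by (try simp only [T9h88.IO.Tree.size]); omega))
      (fc (hN.lt _ (by (try simp only [T9h88.IO.Tree.size]); omega)) fn)))))))))))))))
      (fc (nll hN)
      (fc (ndd hN _ _ (by (try simp only [T9h88.IO.Tree.size]); omega))
      (fc (ndd hN _ _ (by (try simp only [T9h88.IO.Tree.size]); omega))
      (fc (ndd hN _ _ (by (try simp only [T9h88.IO.Tree.size]); omega))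
      (fc (ndd hN _ _ (by (try simp only [T9h88.IO.Tree.size]); omega))
      (fc (ndd hN _ _ (by (try simp only [T9h88.IO.Tree.size]); omega))
      (fc t0
      (fc t1 fn))))))))
  | succ x y =>
    intro b hb hK
    obtain ⟨A0, hA0⟩ : ∃ A0, A0 = app b [false, false, true, true] := ⟨_, rfl⟩
    obtain ⟨A1, hA1⟩ : ∃ A1, A1 = app A0 (varStr x) := ⟨_, rfl⟩
    obtain ⟨A2, hA2⟩ : ∃ A2, A2 = app A1 (varStr y) := ⟨_, rfl⟩
    have e : app b (str (.succ x y)) = A2 := by
      show app b ([false, false, true, true] ++ varStr x ++ varStr y) = _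
      rw [app_append, app_append, hA2, hA1, hA0]
    rw [e] at hb ⊢
    have l0 : b ≤ A0 := by rw [hA0]; exact le_app _ _
    have l1 : A0 ≤ A1 := by rw [hA1]; exact le_app _ _
    have l2 : A1 ≤ A2 := by rw [hA2]; exact le_app _ _
    simp only [enc, impT, allT, encA, encV, comb, T9h88.IO.Tree.size] at hK
    have t0 : Der Cs N N.length (o2 (iApp [false, false, true, true]) b A0) := by
      rw [hA0]
      exact tag_der h hA hN _ (List.mem_of_getElem? (i := 3) rfl) b (by rw [← hA0]; omega)
    have t1 : Der Cs N N.length (o3 iVar (ν (comb x)) A0 A1) := by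
      rw [hA1]
      exact var_der h hS hN _ _ (by rw [← hA1]; omega) (by omega)
    have t2 : Der Cs N N.length (o3 iVar (ν (comb y)) A1 A2) := by
      rw [hA2]
      exact var_der h hS hN _ _ (by rw [← hA2]; omega) (by omega)
    exact stp (hS _ (List.mem_of_getElem? (l := clStr) (i := 5) rfl))
      [ν .nil, ν (comb x), ν (comb y), 0, 0, ν (T9h88.IO.Tree.node (comb y) T9h88.IO.Tree.nil), ν (T9h88.IO.Tree.node (comb x) (T9h88.IO.Tree.node (comb y) T9h88.IO.Tree.nil)), ν (T9h88.IO.Tree.node (T9h88.IO.Tree.node (T9h88.IO.Tree.node T9h88.IO.Tree.nil T9h88.IO.Tree.nil) (T9h88.IO.Tree.node T9h88.IO.Tree.nil T9h88.IO.Tree.nil)) (T9h88.IO.Tree.node (comb x) (T9h88.IO.Tree.node (comb y) T9h88.IO.Tree.nil))), ν (T9h88.IO.Tree.node T9h88.IO.Tree.nil (T9h88.IO.Tree.node (T9h88.IO.Tree.node (T9h88.IO.Tree.node T9h88.IO.Tree.nil T9h88.IO.Tree.nil) (T9h88.IO.Tree.node T9h88.IO.Tree.nil T9h88.IO.Tree.nil)) (T9h88.IO.Tree.node (comb x) (T9h88.IO.Tree.node (comb y) T9h88.IO.Tree.nil)))), b, A0,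 A1, A2, ν (T9h88.IO.Tree.node T9h88.IO.Tree.nil T9h88.IO.Tree.nil), ν (T9h88.IO.Tree.node (T9h88.IO.Tree.node T9h88.IO.Tree.nil T9h88.IO.Tree.nil) (T9h88.IO.Tree.node T9h88.IO.Tree.nil T9h88.IO.Tree.nil))]
      (lt_len hN (Nat.zero_le _))
      (fc (hN.lt _ (by (try simp only [T9h88.IO.Tree.size]); omega))
      (fc (hN.lt _ (by (try simp only [T9h88.IO.Tree.size]); omega))
      (fc (hN.lt _ (by (try simp only [T9h88.IO.Tree.size]); omega))
      (fc (lt_len hN (by omega))
      (fc (lt_len hN (by omega))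
      (fc (hN.lt _ (by (try simp only [T9h88.IO.Tree.size]); omega))
      (fc (hN.lt _ (by (try simp only [T9h88.IO.Tree.size]); omega))
      (fc (hN.lt _ (by (try simp only [T9h88.IO.Tree.size]); omega))
      (fc (hN.lt _ (by (try simp only [T9h88.IO.Tree.size]); omega))
      (fc (lt_len hN (by omega))
      (fc (lt_len hN (by omega))
      (fc (lt_len hN (by omega))
      (fc (lt_len hN (by omega))
      (fc (hN.lt _ (by (try simp only [T9h88.IO.Tree.size]); omega))
      (fc (hN.lt _ (by (try simp only [T9h88.IO.Tree.size]); omega)) fn)))))))))))))))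
      (fc (nll hN)
      (fc (ndd hN _ _ (by (try simp only [T9h88.IO.Tree.size]); omega))
      (fc (ndd hN _ _ (by (try simp only [T9h88.IO.Tree.size]); omega))
      (fc (ndd hN _ _ (by (try simp only [T9h88.IO.Tree.size]); omega))
      (fc (ndd hN _ _ (by (try simp only [T9h88.IO.Tree.size]); omega))
      (fc (ndd hN _ _ (by (try simp only [T9h88.IO.Tree.size]); omega))
      (fc (ndd hN _ _ (by (try simp only [T9h88.IO.Tree.size]); omega))
      (fc t0
      (fc t1
      (fc t2 fn))))))))))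
  | add x y z =>
    intro b hb hK
    obtain ⟨A0, hA0⟩ : ∃ A0, A0 = app b [false, true, false, false] := ⟨_, rfl⟩
    obtain ⟨A1, hA1⟩ : ∃ A1, A1 = app A0 (varStr x) := ⟨_, rfl⟩
    obtain ⟨A2, hA2⟩ : ∃ A2, A2 = app A1 (varStr y) := ⟨_, rfl⟩
    obtain ⟨A3, hA3⟩ : ∃ A3, A3 = app A2 (varStr z) := ⟨_, rfl⟩
    have e : app b (str (.add x y z)) = A3 := by
      show app b ([false, true, false, false] ++ varStr x ++ varStr y ++ varStr z) = _
      rw [app_append, app_append, app_append, hA3, hA2, hA1, hA0]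
    rw [e] at hb ⊢
    have l0 : b ≤ A0 := by rw [hA0]; exact le_app _ _
    have l1 : A0 ≤ A1 := by rw [hA1]; exact le_app _ _
    have l2 : A1 ≤ A2 := by rw [hA2]; exact le_app _ _
    have l3 : A2 ≤ A3 := by rw [hA3]; exact le_app _ _
    simp only [enc, impT, allT, encA, encV, comb, T9h88.IO.Tree.size] at hK
    have t0 : Der Cs N N.length (o2 (iApp [false, true, false, false]) b A0) := by
      rw [hA0]
      exact tag_der h hA hN _ (List.mem_of_getElem? (i := 4) rfl) b (by rw [← hA0]; omega)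
    have t1 : Der Cs N N.length (o3 iVar (ν (comb x)) A0 A1) := by
      rw [hA1]
      exact var_der h hS hN _ _ (by rw [← hA1]; omega) (by omega)
    have t2 : Der Cs N N.length (o3 iVar (ν (comb y)) A1 A2) := by
      rw [hA2]
      exact var_der h hS hN _ _ (by rw [← hA2]; omega) (by omega)
    have t3 : Der Cs N N.length (o3 iVar (ν (comb z)) A2 A3) := by
      rw [hA3]
      exact var_der h hS hN _ _ (by rw [← hA3]; omega) (by omega)
    exact stp (hS _ (List.mem_of_getElem? (l := clStr) (i := 6) rfl))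
      [ν .nil, ν (comb x), ν (comb y), ν (comb z), ν (T9h88.IO.Tree.node (comb z) T9h88.IO.Tree.nil), ν (T9h88.IO.Tree.node (comb y) (T9h88.IO.Tree.node (comb z) T9h88.IO.Tree.nil)), ν (T9h88.IO.Tree.node (comb x) (T9h88.IO.Tree.node (comb y) (T9h88.IO.Tree.node (comb z) T9h88.IO.Tree.nil))), ν (T9h88.IO.Tree.node (T9h88.IO.Tree.node (T9h88.IO.Tree.node T9h88.IO.Tree.nil T9h88.IO.Tree.nil) (T9h88.IO.Tree.node T9h88.IO.Tree.nil (T9h88.IO.Tree.node T9h88.IO.Tree.nil T9h88.IO.Tree.nil))) (T9h88.IO.Tree.node (comb x) (T9h88.IO.Tree.node (comb y) (T9h88.IO.Tree.node (comb z) T9h88.IO.Tree.nil)))), ν (T9h88.IO.Tree.node T9h88.IO.Tree.nil (T9h88.IO.Tree.node (T9h88.IO.Tree.node (T9h88.IO.Tree.node T9h88.IO.Tree.nil T9h88.IO.Tree.nil) (T9h88.IO.Tree.node T9h88.IO.Tree.nil (T9h88.IO.Tree.node T9h88.IO.Tree.nil T9h88.IO.Tree.nil))) (T9h88.IO.Tree.node (comb x) (T9h88.IO.Tree.node (comb y) (T9h88.IO.Tree.node (comb z) T9h88.IO.Tree.nil))))), b, A0, A1, A2, ν (T9h88.IO.Tree.node T9h88.IO.Tree.nil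 T9h88.IO.Tree.nil), ν (T9h88.IO.Tree.node (T9h88.IO.Tree.node T9h88.IO.Tree.nil T9h88.IO.Tree.nil) (T9h88.IO.Tree.node T9h88.IO.Tree.nil (T9h88.IO.Tree.node T9h88.IO.Tree.nil T9h88.IO.Tree.nil))), ν (T9h88.IO.Tree.node T9h88.IO.Tree.nil (T9h88.IO.Tree.node T9h88.IO.Tree.nil T9h88.IO.Tree.nil)), A3]
      (lt_len hN (Nat.zero_le _))
      (fc (hN.lt _ (by (try simp only [T9h88.IO.Tree.size]); omega))
      (fc (hN.lt _ (by (try simp only [T9h88.IO.Tree.size]); omega))
      (fc (hN.lt _ (by (try simp only [T9h88.IO.Tree.size]); omega))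
      (fc (hN.lt _ (by (try simp only [T9h88.IO.Tree.size]); omega))
      (fc (hN.lt _ (by (try simp only [T9h88.IO.Tree.size]); omega))
      (fc (hN.lt _ (by (try simp only [T9h88.IO.Tree.size]); omega))
      (fc (hN.lt _ (by (try simp only [T9h88.IO.Tree.size]); omega))
      (fc (hN.lt _ (by (try simp only [T9h88.IO.Tree.size]); omega))
      (fc (hN.lt _ (by (try simp only [T9h88.IO.Tree.size]); omega))
      (fc (lt_len hN (by omega))
      (fc (lt_len hN (by omega))
      (fc (lt_len hN (by omega))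
      (fc (lt_len hN (by omega))
      (fc (hN.lt _ (by (try simp only [T9h88.IO.Tree.size]); omega))
      (fc (hN.lt _ (by (try simp only [T9h88.IO.Tree.size]); omega))
      (fc (hN.lt _ (by (try simp only [T9h88.IO.Tree.size]); omega))
      (fc (lt_len hN (by omega)) fn)))))))))))))))))
      (fc (nll hN)
      (fc (ndd hN _ _ (by (try simp only [T9h88.IO.Tree.size]); omega))
      (fc (ndd hN _ _ (by (try simp only [T9h88.IO.Tree.size]); omega))
      (fc (ndd hN _ _ (by (try simp only [T9h88.IO.Tree.size]); omega))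
      (fc (ndd hN _ _ (by (try simp only [T9h88.IO.Tree.size]); omega))
      (fc (ndd hN _ _ (by (try simp only [T9h88.IO.Tree.size]); omega))
      (fc (ndd hN _ _ (by (try simp only [T9h88.IO.Tree.size]); omega))
      (fc (ndd hN _ _ (by (try simp only [T9h88.IO.Tree.size]); omega))
      (fc (ndd hN _ _ (by (try simp only [T9h88.IO.Tree.size]); omega))
      (fc t0
      (fc t1
      (fc t2
      (fc t3 fn)))))))))))))
  | mul x y z =>
    intro b hb hK
    obtain ⟨A0, hA0⟩ : ∃ A0, A0 = app b [false, true, false, true] := ⟨_, rfl⟩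
    obtain ⟨A1, hA1⟩ : ∃ A1, A1 = app A0 (varStr x) := ⟨_, rfl⟩
    obtain ⟨A2, hA2⟩ : ∃ A2, A2 = app A1 (varStr y) := ⟨_, rfl⟩
    obtain ⟨A3, hA3⟩ : ∃ A3, A3 = app A2 (varStr z) := ⟨_, rfl⟩
    have e : app b (str (.mul x y z)) = A3 := by
      show app b ([false, true, false, true] ++ varStr x ++ varStr y ++ varStr z) = _
      rw [app_append, app_append, app_append, hA3, hA2, hA1, hA0]
    rw [e] at hb ⊢
    have l0 : b ≤ A0 := by rw [hA0]; exact le_app _ _
    have l1 : A0 ≤ A1 := by rw [hA1]; exact le_app _ _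
    have l2 : A1 ≤ A2 := by rw [hA2]; exact le_app _ _
    have l3 : A2 ≤ A3 := by rw [hA3]; exact le_app _ _
    simp only [enc, impT, allT, encA, encV, comb, T9h88.IO.Tree.size] at hK
    have t0 : Der Cs N N.length (o2 (iApp [false, true, false, true]) b A0) := by
      rw [hA0]
      exact tag_der h hA hN _ (List.mem_of_getElem? (i := 5) rfl) b (by rw [← hA0]; omega)
    have t1 : Der Cs N N.length (o3 iVar (ν (comb x)) A0 A1) := by
      rw [hA1]
      exact var_der h hS hN _ _ (by rw [← hA1]; omega) (by omega)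
    have t2 : Der Cs N N.length (o3 iVar (ν (comb y)) A1 A2) := by
      rw [hA2]
      exact var_der h hS hN _ _ (by rw [← hA2]; omega) (by omega)
    have t3 : Der Cs N N.length (o3 iVar (ν (comb z)) A2 A3) := by
      rw [hA3]
      exact var_der h hS hN _ _ (by rw [← hA3]; omega) (by omega)
    exact stp (hS _ (List.mem_of_getElem? (l := clStr) (i := 7) rfl))
      [ν .nil, ν (comb x), ν (comb y), ν (comb z), ν (T9h88.IO.Tree.node (comb z) T9h88.IO.Tree.nil), ν (T9h88.IO.Tree.node (comb y) (T9h88.IO.Tree.node (comb z) T9h88.IO.Tree.nil)), ν (T9h88.IO.Tree.node (comb x) (T9h88.IO.Tree.node (comb y) (T9h88.IO.Tree.node (comb z) T9h88.IO.Tree.nil))), ν (T9h88.IO.Tree.node (T9h88.IO.Tree.node (T9h88.IO.Tree.node T9h88.IO.Tree.nil T9h88.IO.Tree.nil) (T9h88.IO.Tree.node T9h88.IO.Tree.nil (T9h88.IO.Tree.node T9h88.IO.Tree.nil (T9h88.IO.Tree.node T9h88.IO.Tree.nil T9h88.IO.Tree.nil)))) (T9h88.IO.Tree.node (comb x) (T9h88.IO.Tree.node (comb y) (T9h88.IO.Tree.node (comb z) T9h88.IO.Tree.nil)))),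 ν (T9h88.IO.Tree.node T9h88.IO.Tree.nil (T9h88.IO.Tree.node (T9h88.IO.Tree.node (T9h88.IO.Tree.node T9h88.IO.Tree.nil T9h88.IO.Tree.nil) (T9h88.IO.Tree.node T9h88.IO.Tree.nil (T9h88.IO.Tree.node T9h88.IO.Tree.nil (T9h88.IO.Tree.node T9h88.IO.Tree.nil T9h88.IO.Tree.nil)))) (T9h88.IO.Tree.node (comb x) (T9h88.IO.Tree.node (comb y) (T9h88.IO.Tree.node (comb z) T9h88.IO.Tree.nil))))), b, A0, A1, A2, ν (T9h88.IO.Tree.node T9h88.IO.Tree.nil T9h88.IO.Tree.nil), ν (T9h88.IO.Tree.node (T9h88.IO.Tree.node T9h88.IO.Tree.nil T9h88.IO.Tree.nil) (T9h88.IO.Tree.node T9h88.IO.Tree.nil (T9h88.IO.Tree.node T9h88.IO.Tree.nil (T9h88.IO.Tree.node T9h88.IO.Tree.nil T9h88.IO.Tree.nil)))), ν (T9h88.IO.Tree.node T9h88.IO.Tree.nil (T9h88.IO.Tree.node T9h88.IO.Tree.nil T9h88.IO.Tree.nil)), A3, ν (T9h88.IO.Tree.node T9h88.IO.Tree.nil (T9h88.IO.Tree.node T9h88.IO.Tree.nil (T9h88.IO.Tree.node T9h88.IO.Tree.nil T9h88.IO.Tree.nil)))]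
      (lt_len hN (Nat.zero_le _))
      (fc (hN.lt _ (by (try simp only [T9h88.IO.Tree.size]); omega))
      (fc (hN.lt _ (by (try simp only [T9h88.IO.Tree.size]); omega))
      (fc (hN.lt _ (by (try simp only [T9h88.IO.Tree.size]); omega))
      (fc (hN.lt _ (by (try simp only [T9h88.IO.Tree.size]); omega))
      (fc (hN.lt _ (by (try simp only [T9h88.IO.Tree.size]); omega))
      (fc (hN.lt _ (by (try simp only [T9h88.IO.Tree.size]); omega))
      (fc (hN.lt _ (by (try simp only [T9h88.IO.Tree.size]); omega))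
      (fc (hN.lt _ (by (try simp only [T9h88.IO.Tree.size]); omega))
      (fc (hN.lt _ (by (try simp only [T9h88.IO.Tree.size]); omega))
      (fc (lt_len hN (by omega))
      (fc (lt_len hN (by omega))
      (fc (lt_len hN (by omega))
      (fc (lt_len hN (by omega))
      (fc (hN.lt _ (by (try simp only [T9h88.IO.Tree.size]); omega))
      (fc (hN.lt _ (by (try simp only [T9h88.IO.Tree.size]); omega))
      (fc (hN.lt _ (by (try simp only [T9h88.IO.Tree.size]); omega))
      (fc (lt_len hN (by omega))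
      (fc (hN.lt _ (by (try simp only [T9h88.IO.Tree.size]); omega)) fn))))))))))))))))))
      (fc (nll hN)
      (fc (ndd hN _ _ (by (try simp only [T9h88.IO.Tree.size]); omega))
      (fc (ndd hN _ _ (by (try simp only [T9h88.IO.Tree.size]); omega))
      (fc (ndd hN _ _ (by (try simp only [T9h88.IO.Tree.size]); omega))
      (fc (ndd hN _ _ (by (try simp only [T9h88.IO.Tree.size]); omega))
      (fc (ndd hN _ _ (by (try simp only [T9h88.IO.Tree.size]); omega))
      (fc (ndd hN _ _ (by (try simp only [T9h88.IO.Tree.size]); omega))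
      (fc (ndd hN _ _ (by (try simp only [T9h88.IO.Tree.size]); omega))
      (fc (ndd hN _ _ (by (try simp only [T9h88.IO.Tree.size]); omega))
      (fc (ndd hN _ _ (by (try simp only [T9h88.IO.Tree.size]); omega))
      (fc t0
      (fc t1
      (fc t2
      (fc t3 fn))))))))))))))
  | op i x y z w =>
    intro b hb hK
    obtain ⟨A0, hA0⟩ : ∃ A0, A0 = app b [false, true, true, false] := ⟨_, rfl⟩
    obtain ⟨A1, hA1⟩ : ∃ A1, A1 = app A0 (varStr i) := ⟨_, rfl⟩
    obtain ⟨A2, hA2⟩ : ∃ A2, A2 = app A1 (varStr x) := ⟨_, rfl⟩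
    obtain ⟨A3, hA3⟩ : ∃ A3, A3 = app A2 (varStr y) := ⟨_, rfl⟩
    obtain ⟨A4, hA4⟩ : ∃ A4, A4 = app A3 (varStr z) := ⟨_, rfl⟩
    obtain ⟨A5, hA5⟩ : ∃ A5, A5 = app A4 (varStr w) := ⟨_, rfl⟩
    have e : app b (str (.op i x y z w)) = A5 := by
      show app b ([false, true, true, false] ++ varStr i ++ varStr x ++ varStr y ++ varStr z ++ varStr w) = _
      rw [app_append, app_append, app_append, app_append, app_append, hA5, hA4, hA3, hA2, hA1, hA0]
    rw [e] at hb ⊢
    have l0 : b ≤ A0 := by rw [hA0]; exact le_app _ _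
    have l1 : A0 ≤ A1 := by rw [hA1]; exact le_app _ _
    have l2 : A1 ≤ A2 := by rw [hA2]; exact le_app _ _
    have l3 : A2 ≤ A3 := by rw [hA3]; exact le_app _ _
    have l4 : A3 ≤ A4 := by rw [hA4]; exact le_app _ _
    have l5 : A4 ≤ A5 := by rw [hA5]; exact le_app _ _
    simp only [enc, impT, allT, encA, encV, comb, T9h88.IO.Tree.size] at hK
    have t0 : Der Cs N N.length (o2 (iApp [false, true, true, false]) b A0) := by
      rw [hA0]
      exact tag_der h hA hN _ (List.mem_of_getElem? (i := 6) rfl) b (by rw [← hA0]; omega)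
    have t1 : Der Cs N N.length (o3 iVar (ν (comb i)) A0 A1) := by
      rw [hA1]
      exact var_der h hS hN _ _ (by rw [← hA1]; omega) (by omega)
    have t2 : Der Cs N N.length (o3 iVar (ν (comb x)) A1 A2) := by
      rw [hA2]
      exact var_der h hS hN _ _ (by rw [← hA2]; omega) (by omega)
    have t3 : Der Cs N N.length (o3 iVar (ν (comb y)) A2 A3) := by
      rw [hA3]
      exact var_der h hS hN _ _ (by rw [← hA3]; omega) (by omega)
    have t4 : Der Cs N N.length (o3 iVar (ν (comb z)) A3 A4) := by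
      rw [hA4]
      exact var_der h hS hN _ _ (by rw [← hA4]; omega) (by omega)
    have t5 : Der Cs N N.length (o3 iVar (ν (comb w)) A4 A5) := by
      rw [hA5]
      exact var_der h hS hN _ _ (by rw [← hA5]; omega) (by omega)
    exact stp (hS _ (List.mem_of_getElem? (l := clStr) (i := 8) rfl))
      [ν .nil, ν (comb x), ν (comb y), ν (comb z), ν (T9h88.IO.Tree.node (comb z) (T9h88.IO.Tree.node (comb w) T9h88.IO.Tree.nil)), ν (T9h88.IO.Tree.node (comb y) (T9h88.IO.Tree.node (comb z) (T9h88.IO.Tree.node (comb w) T9h88.IO.Tree.nil))), ν (T9h88.IO.Tree.node (comb x) (T9h88.IO.Tree.node (comb y) (T9h88.IO.Tree.node (comb z) (T9h88.IO.Tree.node (comb w) T9h88.IO.Tree.nil)))), ν (T9h88.IO.Tree.node (T9h88.IO.Tree.node T9h88.IO.Tree.nil (comb i)) (T9h88.IO.Tree.node (comb x) (T9h88.IO.Tree.node (comb y) (T9h88.IO.Tree.node (comb z) (T9h88.IO.Tree.node (comb w) T9h88.IO.Tree.nil))))), ν (T9h88.IO.Tree.node T9h88.IO.Tree.nil (T9h88.IO.Tree.node (T9h88.IO.Tree.node T9h88.IO.Tree.nil (comb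 i)) (T9h88.IO.Tree.node (comb x) (T9h88.IO.Tree.node (comb y) (T9h88.IO.Tree.node (comb z) (T9h88.IO.Tree.node (comb w) T9h88.IO.Tree.nil)))))), b, A1, A2, A3, 0, ν (T9h88.IO.Tree.node T9h88.IO.Tree.nil (comb i)), 0, A4, ν (comb i), ν (comb w), ν (T9h88.IO.Tree.node (comb w) T9h88.IO.Tree.nil), A0, A5]
      (lt_len hN (Nat.zero_le _))
      (fc (hN.lt _ (by (try simp only [T9h88.IO.Tree.size]); omega))
      (fc (hN.lt _ (by (try simp only [T9h88.IO.Tree.size]); omega))
      (fc (hN.lt _ (by (try simp only [T9h88.IO.Tree.size]); omega))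
      (fc (hN.lt _ (by (try simp only [T9h88.IO.Tree.size]); omega))
      (fc (hN.lt _ (by (try simp only [T9h88.IO.Tree.size]); omega))
      (fc (hN.lt _ (by (try simp only [T9h88.IO.Tree.size]); omega))
      (fc (hN.lt _ (by (try simp only [T9h88.IO.Tree.size]); omega))
      (fc (hN.lt _ (by (try simp only [T9h88.IO.Tree.size]); omega))
      (fc (hN.lt _ (by (try simp only [T9h88.IO.Tree.size]); omega))
      (fc (lt_len hN (by omega))
      (fc (lt_len hN (by omega))
      (fc (lt_len hN (by omega))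
      (fc (lt_len hN (by omega))
      (fc (lt_len hN (by omega))
      (fc (hN.lt _ (by (try simp only [T9h88.IO.Tree.size]); omega))
      (fc (lt_len hN (by omega))
      (fc (lt_len hN (by omega))
      (fc (hN.lt _ (by (try simp only [T9h88.IO.Tree.size]); omega))
      (fc (hN.lt _ (by (try simp only [T9h88.IO.Tree.size]); omega))
      (fc (hN.lt _ (by (try simp only [T9h88.IO.Tree.size]); omega))
      (fc (lt_len hN (by omega))
      (fc (lt_len hN (by omega)) fn))))))))))))))))))))))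
      (fc (nll hN)
      (fc (ndd hN _ _ (by (try simp only [T9h88.IO.Tree.size]); omega))
      (fc (ndd hN _ _ (by (try simp only [T9h88.IO.Tree.size]); omega))
      (fc (ndd hN _ _ (by (try simp only [T9h88.IO.Tree.size]); omega))
      (fc (ndd hN _ _ (by (try simp only [T9h88.IO.Tree.size]); omega))
      (fc (ndd hN _ _ (by (try simp only [T9h88.IO.Tree.size]); omega))
      (fc (ndd hN _ _ (by (try simp only [T9h88.IO.Tree.size]); omega))
      (fc (ndd hN _ _ (by (try simp only [T9h88.IO.Tree.size]); omega))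
      (fc t0
      (fc t1
      (fc t2
      (fc t3
      (fc t4
      (fc t5 fn))))))))))))))
  | imp φ ψ ihφ ihψ =>
    intro b hb hK
    obtain ⟨A0, hA0⟩ : ∃ A0, A0 = app b [false, true, true, true] := ⟨_, rfl⟩
    obtain ⟨A1, hA1⟩ : ∃ A1, A1 = app A0 (str φ) := ⟨_, rfl⟩
    obtain ⟨A2, hA2⟩ : ∃ A2, A2 = app A1 (str ψ) := ⟨_, rfl⟩
    have e : app b (str (.imp φ ψ)) = A2 := by
      show app b ([false, true, true, true] ++ str φ ++ str ψ) = _
      rw [app_append, app_append, hA2, hA1, hA0]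
    rw [e] at hb ⊢
    have l0 : b ≤ A0 := by rw [hA0]; exact le_app _ _
    have l1 : A0 ≤ A1 := by rw [hA1]; exact le_app _ _
    have l2 : A1 ≤ A2 := by rw [hA2]; exact le_app _ _
    simp only [enc, impT, allT, encA, encV, comb, T9h88.IO.Tree.size] at hK
    have t0 : Der Cs N N.length (o2 (iApp [false, true, true, true]) b A0) := by
      rw [hA0]
      exact tag_der h hA hN _ (List.mem_of_getElem? (i := 7) rfl) b (by rw [← hA0]; omega)
    have t1 : Der Cs N N.length (o3 iStr (ν (enc φ)) A0 A1) := by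
      rw [hA1]
      exact ihφ _ (by rw [← hA1]; omega) (by omega)
    have t2 : Der Cs N N.length (o3 iStr (ν (enc ψ)) A1 A2) := by
      rw [hA2]
      exact ihψ _ (by rw [← hA2]; omega) (by omega)
    exact stp (hS _ (List.mem_of_getElem? (l := clStr) (i := 9) rfl))
      [ν .nil, ν (T9h88.IO.Tree.node T9h88.IO.Tree.nil T9h88.IO.Tree.nil), ν (enc φ), ν (enc ψ), ν (T9h88.IO.Tree.node (enc φ) (enc ψ)), ν (T9h88.IO.Tree.node (T9h88.IO.Tree.node T9h88.IO.Tree.nil T9h88.IO.Tree.nil) (T9h88.IO.Tree.node (enc φ) (enc ψ))), b, A0, A1, A2]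
      (lt_len hN (Nat.zero_le _))
      (fc (hN.lt _ (by (try simp only [T9h88.IO.Tree.size]); omega))
      (fc (hN.lt _ (by (try simp only [T9h88.IO.Tree.size]); omega))
      (fc (hN.lt _ (by (try simp only [T9h88.IO.Tree.size]); omega))
      (fc (hN.lt _ (by (try simp only [T9h88.IO.Tree.size]); omega))
      (fc (hN.lt _ (by (try simp only [T9h88.IO.Tree.size]); omega))
      (fc (hN.lt _ (by (try simp only [T9h88.IO.Tree.size]); omega))
      (fc (lt_len hN (by omega))
      (fc (lt_len hN (by omega))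
      (fc (lt_len hN (by omega))
      (fc (lt_len hN (by omega)) fn))))))))))
      (fc (nll hN)
      (fc (ndd hN _ _ (by (try simp only [T9h88.IO.Tree.size]); omega))
      (fc (ndd hN _ _ (by (try simp only [T9h88.IO.Tree.size]); omega))
      (fc (ndd hN _ _ (by (try simp only [T9h88.IO.Tree.size]); omega))
      (fc t0
      (fc t1
      (fc t2 fn)))))))
  | all x φ ihφ =>
    intro b hb hK
    obtain ⟨A0, hA0⟩ : ∃ A0, A0 = app b [true, false, false, false] := ⟨_, rfl⟩
    obtain ⟨A1, hA1⟩ : ∃ A1, A1 = app A0 (varStr x) := ⟨_, rfl⟩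
    obtain ⟨A2, hA2⟩ : ∃ A2, A2 = app A1 (str φ) := ⟨_, rfl⟩
    have e : app b (str (.all x φ)) = A2 := by
      show app b ([true, false, false, false] ++ varStr x ++ str φ) = _
      rw [app_append, app_append, hA2, hA1, hA0]
    rw [e] at hb ⊢
    have l0 : b ≤ A0 := by rw [hA0]; exact le_app _ _
    have l1 : A0 ≤ A1 := by rw [hA1]; exact le_app _ _
    have l2 : A1 ≤ A2 := by rw [hA2]; exact le_app _ _
    simp only [enc, impT, allT, encA, encV, comb, T9h88.IO.Tree.size] at hK
    have t0 : Der Cs N N.length (o2 (iApp [true, false, false, false]) b A0) := by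
      rw [hA0]
      exact tag_der h hA hN _ (List.mem_of_getElem? (i := 8) rfl) b (by rw [← hA0]; omega)
    have t1 : Der Cs N N.length (o3 iVar (ν (comb x)) A0 A1) := by
      rw [hA1]
      exact var_der h hS hN _ _ (by rw [← hA1]; omega) (by omega)
    have t2 : Der Cs N N.length (o3 iStr (ν (enc φ)) A1 A2) := by
      rw [hA2]
      exact ihφ _ (by rw [← hA2]; omega) (by omega)
    exact stp (hS _ (List.mem_of_getElem? (l := clStr) (i := 10) rfl))
      [ν .nil, ν (T9h88.IO.Tree.node T9h88.IO.Tree.nil T9h88.IO.Tree.nil), ν (T9h88.IO.Tree.node (T9h88.IO.Tree.node T9h88.IO.Tree.nil T9h88.IO.Tree.nil) T9h88.IO.Tree.nil), ν (comb x), ν (enc φ), ν (T9h88.IO.Tree.node (comb x) (enc φ)), ν (T9h88.IO.Tree.node (T9h88.IO.Tree.node (T9h88.IO.Tree.node T9h88.IO.Tree.nil T9h88.IO.Tree.nil) T9h88.IO.Tree.nil) (T9h88.IO.Tree.node (comb x) (enc φ))), b, A0, A1, A2]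
      (lt_len hN (Nat.zero_le _))
      (fc (hN.lt _ (by (try simp only [T9h88.IO.Tree.size]); omega))
      (fc (hN.lt _ (by (try simp only [T9h88.IO.Tree.size]); omega))
      (fc (hN.lt _ (by (try simp only [T9h88.IO.Tree.size]); omega))
      (fc (hN.lt _ (by (try simp only [T9h88.IO.Tree.size]); omega))
      (fc (hN.lt _ (by (try simp only [T9h88.IO.Tree.size]); omega))
      (fc (hN.lt _ (by (try simp only [T9h88.IO.Tree.size]); omega))
      (fc (hN.lt _ (by (try simp only [T9h88.IO.Tree.size]); omega))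
      (fc (lt_len hN (by omega))
      (fc (lt_len hN (by omega))
      (fc (lt_len hN (by omega))
      (fc (lt_len hN (by omega)) fn)))))))))))
      (fc (nll hN)
      (fc (ndd hN _ _ (by (try simp only [T9h88.IO.Tree.size]); omega))
      (fc (ndd hN _ _ (by (try simp only [T9h88.IO.Tree.size]); omega))
      (fc (ndd hN _ _ (by (try simp only [T9h88.IO.Tree.size]); omega))
      (fc (ndd hN _ _ (by (try simp only [T9h88.IO.Tree.size]); omega))
      (fc t0
      (fc t1
      (fc t2 fn))))))))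

lemma strs_der (h : ∀ c ∈ clNum P κ, c ∈ Cs) (hS : ∀ c ∈ clStr, c ∈ Cs) (hA : ∀ c ∈ clApp P, c ∈ Cs)
    (hN : Ctx N ν M K) : ∀ (Γ : List Fml) (b : ℕ), app b (strs Γ) ≤ M → (encL Γ).size ≤ K →
      Der Cs N N.length (o3 iStrs (ν (encL Γ)) b (app b (strs Γ)))
  | [], b, hb, hK => by
    have e : app b (strs []) = b := app_nil b
    rw [e] at hb ⊢
    exact stp (hS _ (List.mem_of_getElem? (l := clStr) (i := 11) rfl)) [ν .nil, b]
      (lt_len hN (Nat.zero_le _))
      (fc (hN.lt _ (by (try simp only [T9h88.IO.Tree.size]); omega)) (fc (lt_len hN hb) fn))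
      (fc (nll hN) fn)
  | φ :: Γ, b, hb, hK => by
    have e : app b (strs (φ :: Γ)) = app (app b (str φ)) (strs Γ) := by
      unfold strs
      rw [List.flatMap_cons, app_append]
    rw [e] at hb ⊢
    have h1 := le_app b (str φ)
    have h2 := le_app (app b (str φ)) (strs Γ)
    have hK' : (enc φ).size + (encL Γ).size + 1 ≤ K := hK
    exact stp (hS _ (List.mem_of_getElem? (l := clStr) (i := 12) rfl))
      [ν (enc φ), ν (encL Γ), ν (.node (enc φ) (encL Γ)), b, app b (str φ),
        app (app b (str φ)) (strs Γ)]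
      (lt_len hN (Nat.zero_le _))
      (fc (hN.lt _ (by omega)) (fc (hN.lt _ (by omega)) (fc (hN.lt _ (by (try simp only [T9h88.IO.Tree.size]); omega))
        (fc (lt_len hN (by omega)) (fc (lt_len hN (by omega)) (fc (lt_len hN hb) fn))))))
      (fc (ndd hN _ _ (by (try simp only [T9h88.IO.Tree.size]); omega))
        (fc (str_der h hS hA hN φ b (by omega) (by omega))
          (fc (strs_der h hS hA hN Γ (app b (str φ)) hb (by omega)) fn)))

end

/-- (S8) -/
theorem sStr : SStr := by
  intro P κ Cs N ν M K hCs hN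
  have h : ∀ c ∈ clNum P κ, c ∈ Cs := fun c hc => hCs c (by
    unfold clsB
    simp only [List.mem_append]
    tauto)
  have hS : ∀ c ∈ clStr, c ∈ Cs := fun c hc => hCs c (by
    unfold clsB
    simp only [List.mem_append]
    tauto)
  have hA : ∀ c ∈ clApp P, c ∈ Cs := fun c hc => hCs c (by
    unfold clsB
    simp only [List.mem_append]
    tauto)
  refine ⟨fun τ hτ b hb => app_der h hN τ hτ b hb, fun a ha => db0_der h hN a ha,
    fun a ha => db1_der h hN a ha, fun a b hab => add_der h hN a b hab, fun Γ hΓ hK => ?_⟩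
  rw [code_eq] at hΓ ⊢
  exact strs_der h hS hA hN Γ 0 hΓ hK

end Pool.Agent.T9h58.IO
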